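import Pool.Agent.Lib.MP_3fa020_gt.Main

/-!
Uniform local bound for the total variation of every Lipschitz-Killing curvature measure in a
bi-Lipschitz chart with a lower sectional curvature bound, when at each point either the first
derivatives of the metric are bounded or the coordinates are concave and `g_{pq} ≥ 0`.
-/

namespace Pool.Agent.Results.MP_3fa020_gt.ChartBound

open Pool.Agent.Alesker MeasureTheory

theorem result (n k : ℕ) (Λ : ℝ) (hΛ : 0 < Λ) :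
    ∃ C : ℝ, ∀ g : (Fin n → ℝ) → Matrix (Fin n) (Fin n) ℝ,
      (∀ i j, ContDiff ℝ (⊤ : ℕ∞) fun y => g y i j) → (∀ y i j, g y i j = g y j i) →
      (∀ x : Fin n → ℝ, ‖x‖ ≤ 2 →
        (∀ v : Fin n → ℝ, Λ⁻¹ * ∑ i, v i * v i ≤ ∑ i, ∑ j, g x i j * v i * v j ∧
          ∑ i, ∑ j, g x i j * v i * v j ≤ Λ * ∑ i, v i * v i) ∧
        (∀ v w : Fin n → ℝ,
          -Λ * ((∑ i, ∑ j, g x i j * v i * v j) * (∑ i, ∑ j, g x i j * w i * w j) -
            (∑ i, ∑ j, g x i j * v i * w j) ^ 2) ≤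
          ∑ i, ∑ j, ∑ a, ∑ b, Rm g x i j a b * v i * w j * v a * w b) ∧
        ((∀ i j l, |pd l (fun y => g y i j) x| ≤ Λ) ∨
          ((∀ p q, 0 ≤ g x p q) ∧
            ∀ p, ∀ v : Fin n → ℝ, 0 ≤ ∑ i, ∑ j, Gam g x p i j * v i * v j))) →
      ∫⁻ x in Metric.closedBall (0 : Fin n → ℝ) 1,
        ENNReal.ofReal (|lk k g x| * √(g x).det) ≤ ENNReal.ofReal C := by
  obtain ⟨C, hC⟩ := main_all n k hΛ
  exact ⟨C, fun g h1 h2 h3 => hC g ⟨h1, h2⟩ fun x hx =>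
    ⟨fun v => ((h3 x hx).1 v).1, fun v => ((h3 x hx).1 v).2, (h3 x hx).2.1, (h3 x hx).2.2⟩⟩

end Pool.Agent.Results.MP_3fa020_gt.ChartBound
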