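import Pool.Agent.Lib.MP_3fa020_gt.TLoc
import Pool.Agent.Lib.MP_3fa020_gt.TStmt

/-!
Uniform bound for the total variation of the Lipschitz-Killing curvature of order `2 k` on sets of
bounded intrinsic diameter, under a lower sectional curvature bound and, for `3 ≤ p ≤ k`, a lower
bound for the (shifted) Thorpe curvature of order `2 p`.  For `k ≤ 2` the last hypothesis is
empty; `U = M` is the case of a manifold of diameter at most `D`.
-/

namespace Pool.Agent.Results.MP_3fa020_gt.Thorpe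

open Pool.Agent.AlStmt MeasureTheory

theorem result (n k : ℕ) (hn : 2 * k ≤ n) (D κ μ : ℝ) (hD : 0 < D) :
    ∃ C : ℝ, ∀ (A : ℕ) (M U : Set (Eu A)), IsCompact M → IsPreconnected M → IsSubmfd n M →
      SecGE κ M → (∀ p, 3 ≤ p → p ≤ k → ThorpeGE p μ κ M) → MeasurableSet U → DiamIn D M U →
      IntegrableOn (lk k M) U (μHE[n]) ∧ ∫ x in U, |lk k M x| ∂(μHE[n]) ≤ C := by
  obtain ⟨C, hC⟩ := AlEmb.final_thorpe hn D κ μ hD
  refine ⟨C, fun A M U h1 h0 h2 h3 h4 h5 h6 => hC A M U h1 h0 ⟨h2.1, fun x hx => ?_⟩ h3 h4 h5 h6⟩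
  obtain ⟨V, Φ, a, b, ⟨c, d⟩, e⟩ := h2.2 x hx
  exact ⟨V, Φ, a, b, c, d, e⟩

end Pool.Agent.Results.MP_3fa020_gt.Thorpe
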